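import Pool.Agent.Helper31.LQ.Goals

/-!
# LQ-AVG (MP_6fb600_gt): the averages of the weighted sums
-/

open MeasureTheory Set
open scoped ENNReal Matrix
open Pool.Agent.Helper31.LQ

noncomputable section

namespace Pool.Agent.Helper59.LQ

variable {n d : ℕ}

theorem lc_eq (R : ℝ) (c : Equiv.Perm (Fin (n + 1)) → Fin (n + 1) → ℝ) (Y : Fin n → Fin d → ℝ) :
    Lc R c Y = ∑ π : Equiv.Perm (Fin (n + 1)), ∑ o, wt R π o Y * c π o := by
  classical
  unfold Lc wt
  by_cases hG : Good R Y
  · rw [if_pos hG, Finset.sum_div]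
    refine Finset.sum_congr rfl fun π _ => ?_
    by_cases hF : IsFac Y π
    · rw [if_pos hF, Finset.mul_sum, Finset.sum_div]
      refine Finset.sum_congr rfl fun o _ => ?_
      rw [if_pos ⟨hG, hF⟩]
      ring
    · rw [if_neg hF, zero_div]
      symm
      refine Finset.sum_eq_zero fun o _ => ?_
      rw [if_neg (fun h => hF h.2), zero_mul]
  · rw [if_neg hG]
    symm
    refine Finset.sum_eq_zero fun π _ => Finset.sum_eq_zero fun o _ => ?_
    rw [if_neg (fun h => hG h.1), zero_mul]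

theorem wt_in (hKPF : KPF) (hd : 1 ≤ d) (hdn : d < n) (R : ℝ) (π : Equiv.Perm (Fin (n + 1)))
    (o : Fin (n + 1)) (ho : (π.symm o).val < d) (Y : Fin n → Fin d → ℝ) : wt R π o Y = 0 := by
  classical
  unfold wt
  split_ifs with h
  · have h1 := (hKPF n d hd hdn.le Y π h.2.1).2.1 o ho
    rw [h1, mul_zero, zero_div]
  · rfl

theorem lc_one (hKPF : KPF) (hVD0 : VD0) (hd : 1 ≤ d) (hdn : d < n) (R : ℝ)
    (Y : Fin n → Fin d → ℝ) :
    Lc R (fun _ _ => 1) Y = ({Y : Fin n → Fin d → ℝ | Good R Y}).indicator (fun _ => (1 : ℝ)) Y := by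
  classical
  by_cases hG : Good R Y
  · rw [indicator_of_mem (show Y ∈ {Y : Fin n → Fin d → ℝ | Good R Y} from hG)]
    unfold Lc
    rw [if_pos hG]
    obtain ⟨h1, h2, -, h4⟩ := hVD0 n d hd hdn.le Y hG.1
    have h5 : (∑ π : Equiv.Perm (Fin (n + 1)), if IsFac Y π then
        |(mat Y π).det| * ∑ o, kp Y π o * 1 else 0) =
        ((Nst n d : ℝ) * d.factorial) * (volume (lin Y '' D0 n)).toReal := by
      rw [h1]
      refine Finset.sum_congr rfl fun π _ => ?_
      by_cases hF : IsFac Y π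
      · rw [if_pos hF, if_pos hF]
        have h6 := (hKPF n d hd hdn.le Y π hF.1).2.2.1
        simp only [mul_one]
        rw [h6, mul_one]
      · rw [if_neg hF, if_neg hF]
    rw [h5]
    have h6 : (0 : ℝ) < (Nst n d : ℝ) := by exact_mod_cast h4
    have h7 : (0 : ℝ) < (d.factorial : ℝ) := by exact_mod_cast d.factorial_pos
    exact div_self (by positivity)
  · rw [indicator_of_notMem (show Y ∉ {Y : Fin n → Fin d → ℝ | Good R Y} from hG)]
    unfold Lc
    rw [if_neg hG]

/-- the sum over the outside places -/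
theorem sum_out (c : Equiv.Perm (Fin (n + 1)) → Fin (n + 1) → ℝ) (hdn : d < n)
    (hc : ∀ π π' : Equiv.Perm (Fin (n + 1)), (∀ a : Fin (n + 1), a.val < d → π a = π' a) →
      ∀ o, c π o = c π' o) (ι : ℝ) :
    (∑ π : Equiv.Perm (Fin (n + 1)), ∑ o, (if d ≤ (π.symm o).val then ι else 0) * c π o) =
      (ι * (Finset.univ.filter fun b : Fin (n + 1) => d ≤ b.val).card) *
        ∑ π : Equiv.Perm (Fin (n + 1)), c π (π (Fin.last n)) := by
  have h1 : ∀ π : Equiv.Perm (Fin (n + 1)),
      (∑ o, (if d ≤ (π.symm o).val then ι else 0) * c π o) =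
        ∑ b : Fin (n + 1), (if d ≤ b.val then ι else 0) * c π (π b) := by
    intro π
    rw [← Equiv.sum_comp π (fun o => (if d ≤ (π.symm o).val then ι else 0) * c π o)]
    refine Finset.sum_congr rfl fun b _ => ?_
    rw [Equiv.symm_apply_apply]
  have h2 : ∀ b : Fin (n + 1), d ≤ b.val →
      ∑ π : Equiv.Perm (Fin (n + 1)), c π (π b) =
        ∑ π : Equiv.Perm (Fin (n + 1)), c π (π (Fin.last n)) := by
    intro b hb
    rw [← Equiv.sum_comp (Equiv.mulRight (Equiv.swap b (Fin.last n)))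
      (fun π : Equiv.Perm (Fin (n + 1)) => c π (π b))]
    refine Finset.sum_congr rfl fun π _ => ?_
    have e1 : (Equiv.mulRight (Equiv.swap b (Fin.last n)) π) =
        π * Equiv.swap b (Fin.last n) := rfl
    rw [e1, Equiv.Perm.mul_apply, Equiv.swap_apply_left]
    refine hc _ _ (fun a ha => ?_) _
    rw [Equiv.Perm.mul_apply, Equiv.swap_apply_of_ne_of_ne]
    · rintro rfl
      omega
    · rintro rfl
      rw [Fin.val_last] at ha
      omega
  calc (∑ π : Equiv.Perm (Fin (n + 1)), ∑ o, (if d ≤ (π.symm o).val then ι else 0) * c π o)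
      = ∑ b : Fin (n + 1), ∑ π : Equiv.Perm (Fin (n + 1)),
          (if d ≤ b.val then ι else 0) * c π (π b) := by
        rw [Finset.sum_congr rfl fun π _ => h1 π, Finset.sum_comm]
    _ = ∑ b : Fin (n + 1), if d ≤ b.val then
          ι * ∑ π : Equiv.Perm (Fin (n + 1)), c π (π (Fin.last n)) else 0 := by
        refine Finset.sum_congr rfl fun b _ => ?_
        by_cases hb : d ≤ b.val
        · simp only [if_pos hb]
          rw [← Finset.mul_sum, h2 b hb]
        · simp only [if_neg hb, zero_mul, Finset.sum_const_zero]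
    _ = _ := by
        rw [← Finset.sum_filter, Finset.sum_const, nsmul_eq_mul]
        ring

theorem gAVG (hAVGG : AVGG) (hAVGS : AVGS) (hKPF : KPF) (hVD0 : VD0) (hMEAS : MEAS) :
    Pool.Agent.Helper31.LQ.AVG := by
  classical
  intro n d hd hdn
  obtain ⟨h0, hT, hG⟩ := hAVGG n d hd hdn
  refine ⟨h0, hT, fun θ hθ => ?_⟩
  obtain ⟨R, hR, hRθ⟩ := hG θ hθ
  obtain ⟨hint, heq⟩ := hAVGS n d hd hdn R hR
  have hW : 0 < (W0 n d univ).toReal := ENNReal.toReal_pos h0 hT
  have hGm : MeasurableSet {Y : Fin n → Fin d → ℝ | Good R Y} := (hMEAS n d).2.2.2.2 R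
  -- the integral of `wt`
  set ι : ℝ := ∫ Y : Fin n → Fin d → ℝ, wt R 1 (Fin.last n) Y ∂(W0 n d) with hι
  have hwt : ∀ (π : Equiv.Perm (Fin (n + 1))) (o : Fin (n + 1)),
      ∫ Y : Fin n → Fin d → ℝ, wt R π o Y ∂(W0 n d) = if d ≤ (π.symm o).val then ι else 0 := by
    intro π o
    by_cases ho : d ≤ (π.symm o).val
    · rw [if_pos ho]
      refine heq π 1 o (Fin.last n) ho ?_
      show d ≤ (Fin.last n).val
      rw [Fin.val_last]
      exact hdn.le
    · rw [if_neg ho]
      have h1 : ∀ Y : Fin n → Fin d → ℝ, wt R π o Y = 0 := fun Y =>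
        wt_in hKPF hd hdn R π o (by omega) Y
      simp only [h1, integral_zero]
  have hLint : ∀ c : Equiv.Perm (Fin (n + 1)) → Fin (n + 1) → ℝ,
      Integrable (Lc R c : (Fin n → Fin d → ℝ) → ℝ) (W0 n d) := by
    intro c
    have h1 : (Lc R c : (Fin n → Fin d → ℝ) → ℝ) = fun Y =>
        ∑ π : Equiv.Perm (Fin (n + 1)), ∑ o, wt R π o Y * c π o := funext fun Y => lc_eq R c Y
    rw [h1]
    exact integrable_finsetSum _ fun π _ => integrable_finsetSum _ fun o _ =>
      (hint π o).mul_const _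
  have hLval : ∀ c : Equiv.Perm (Fin (n + 1)) → Fin (n + 1) → ℝ,
      (∀ π π' : Equiv.Perm (Fin (n + 1)), (∀ a : Fin (n + 1), a.val < d → π a = π' a) →
      ∀ o, c π o = c π' o) →
      ∫ Y, Lc R c Y ∂(W0 n d) =
      (ι * (Finset.univ.filter fun b : Fin (n + 1) => d ≤ b.val).card) *
        ∑ π : Equiv.Perm (Fin (n + 1)), c π (π (Fin.last n)) := by
    intro c hc
    simp only [lc_eq]
    rw [integral_finsetSum _ (fun π _ => integrable_finsetSum _ fun o _ =>
      (hint π o).mul_const _), ← sum_out c hdn hc ι]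
    refine Finset.sum_congr rfl fun π _ => ?_
    rw [integral_finsetSum _ (fun o _ => (hint π o).mul_const _)]
    refine Finset.sum_congr rfl fun o _ => ?_
    rw [integral_mul_const, hwt]
  have h1 := hLval (fun _ _ => 1) (fun _ _ _ _ => rfl)
  have h2 : ∫ Y, Lc R (fun _ _ => 1) Y ∂(W0 n d) = (W0 n d {Y | Good R Y}).toReal := by
    simp only [lc_one hKPF hVD0 hd hdn R]
    rw [integral_indicator hGm, setIntegral_const, smul_eq_mul, mul_one]
    rfl
  have h3 : (∑ _π : Equiv.Perm (Fin (n + 1)), (1 : ℝ)) = (n + 1).factorial := by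
    rw [Finset.sum_const, Finset.card_univ, Fintype.card_perm, Fintype.card_fin, nsmul_eq_mul,
      mul_one]
  rw [h2, h3] at h1
  have hf : (0 : ℝ) < ((n + 1).factorial : ℝ) := by exact_mod_cast (n + 1).factorial_pos
  refine ⟨R, hR, (W0 n d {Y | Good R Y}).toReal / (W0 n d univ).toReal, ?_, ?_, ?_⟩
  · rw [le_div_iff₀ hW]
    exact hRθ
  · rw [div_le_one hW]
    exact ENNReal.toReal_mono hT (measure_mono (subset_univ _))
  · intro c hc
    refine ⟨hLint c, ?_⟩
    rw [hLval c hc, h1]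
    have key : ∀ a W f S : ℝ, 0 < W → 0 < f → a * S = W * (a * f / W * (S / f)) := by
      intro a W f S hW hf
      field_simp
    exact key _ _ _ _ hW hf

end Pool.Agent.Helper59.LQ
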