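import Pool.Agent.Helper31.LQ.Goals

/-!
# LQ-CO (MP_6fb600_gt): the algebra of the coordinates
-/

open MeasureTheory Set
open scoped ENNReal Matrix
open Pool.Agent.Helper31.LQ

noncomputable section

namespace Pool.Agent.Helper59.LQ

variable {n d : ℕ}

theorem co_lin_sum {ι : Type*} (s : Finset ι) (Y : Fin n → Fin d → ℝ) (t : ι → ℝ)
    (v : ι → Fin n → ℝ) : lin Y (∑ o ∈ s, t o • v o) = ∑ o ∈ s, t o • lin Y (v o) := by
  funext c
  simp only [lin, Finset.sum_apply, Pi.smul_apply, smul_eq_mul]
  simp only [Finset.sum_mul, Finset.mul_sum]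
  rw [Finset.sum_comm]
  refine Finset.sum_congr rfl fun o _ => Finset.sum_congr rfl fun l _ => ?_
  ring

theorem co_pr_sum {ι : Type*} (s : Finset ι) (t : ι → ℝ)
    (v : ι → Fin (n + 1) → ℝ) : pr (∑ o ∈ s, t o • v o) = ∑ o ∈ s, t o • pr (v o) := by
  funext l
  simp only [pr, Finset.sum_apply, Pi.smul_apply, smul_eq_mul]
  rw [← Finset.sum_sub_distrib]
  refine Finset.sum_congr rfl fun o _ => ?_
  ring

theorem co3 (t : Fin (n + 1) → ℝ) : pr t = ∑ o, t o • ver o := by
  have h : t = ∑ o, t o • (Pi.single o 1 : Fin (n + 1) → ℝ) := by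
    funext l
    simp [Finset.sum_apply, Pi.single_apply]
  conv_lhs => rw [h]
  rw [co_pr_sum]
  rfl

theorem co4 (Y : Fin n → Fin d → ℝ) (t : Fin (n + 1) → ℝ) :
    lin Y (pr t) = ∑ o, t o • yv Y o := by
  rw [co3, co_lin_sum]
  rfl

theorem co5 : ∑ o : Fin (n + 1), ver o = 0 := by
  have h := co3 (n := n) (fun _ => 1)
  simp only [one_smul] at h
  rw [← h]
  funext l
  simp [pr]

theorem co6 (Y : Fin n → Fin d → ℝ) : ∑ o, yv Y o = 0 := by
  have h := co4 Y (fun _ => 1)
  simp only [one_smul] at h
  rw [← h]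
  funext c
  simp [pr, lin]

theorem co7 (Y : Fin n → Fin d → ℝ) (l : Fin n) : yv Y (Fin.castSucc l) = Y l := by
  funext c
  simp only [yv, lin, ver, pr]
  rw [Finset.sum_eq_single l]
  · rw [Pi.single_eq_same, Pi.single_eq_of_ne (Fin.castSucc_lt_last l).ne' , sub_zero, one_mul]
  · intro m _ hm
    rw [Pi.single_eq_of_ne (fun h => hm (Fin.castSucc_injective n h)),
      Pi.single_eq_of_ne (Fin.castSucc_lt_last l).ne', sub_zero, zero_mul]
  · intro h
    exact absurd (Finset.mem_univ l) h

theorem co9 (j : Fin (n + 1)) (t : Fin (n + 1) → ℝ) (c : ℝ) :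
    ell j (t + fun _ => c) = ell j t := by
  simp only [ell, Pi.add_apply]
  rw [Finset.sum_add_distrib, Finset.sum_const, Finset.card_univ, Fintype.card_fin, nsmul_eq_mul]
  push_cast
  ring

theorem co_li (t : Fin (n + 1) → ℝ) : li (pr t) = t + fun _ => -t (Fin.last n) := by
  funext o
  refine Fin.lastCases ?_ (fun l => ?_) o
  · simp [li]
  · simp only [li, Fin.snoc_castSucc, Pi.add_apply, pr]
    ring

theorem co_emb (d : ℕ) (π : Equiv.Perm (Fin (n + 1))) (s : Fin d → ℝ) :
    emb d π s = ∑ a, s a • emb d π (Pi.single a 1) := by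
  funext o
  simp only [emb, Finset.sum_apply, Pi.smul_apply, smul_eq_mul]
  by_cases h : (π.symm o).val < d
  · simp only [dif_pos h]
    rw [Finset.sum_eq_single ⟨(π.symm o).val, h⟩]
    · rw [Pi.single_eq_same, mul_one]
    · intro b _ hb
      rw [Pi.single_eq_of_ne (Ne.symm hb), mul_zero]
    · intro h'
      exact absurd (Finset.mem_univ _) h'
  · simp only [dif_neg h, mul_zero, Finset.sum_const_zero]

theorem gCO : Pool.Agent.Helper31.LQ.CO := by
  intro n d Y
  refine ⟨?_, ?_, co3, co4 Y, co5, co6 Y, co7 Y, ?_, co9, ?_, ?_, ?_, ?_⟩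
  · intro x
    funext l
    simp [pr, li]
  · intro t c
    funext l
    simp only [pr, Pi.add_apply]
    ring
  · have h := co6 Y
    rw [Fin.sum_univ_castSucc] at h
    simp only [co7] at h
    exact (neg_eq_of_add_eq_zero_right h).symm
  · intro j t
    rw [co_li, co9]
  · intro π s hd
    symm
    refine Fintype.sum_of_injective (fun a : Fin d => π (Fin.castLE hd a)) ?_ s _ ?_ ?_
    · intro a b hab
      exact Fin.castLE_injective hd (π.injective hab)
    · intro o ho
      unfold emb
      rw [dif_neg]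
      intro h
      apply ho
      refine ⟨⟨(π.symm o).val, h⟩, ?_⟩
      show π (Fin.castLE hd ⟨(π.symm o).val, h⟩) = o
      have e : Fin.castLE hd ⟨(π.symm o).val, h⟩ = π.symm o := Fin.ext rfl
      rw [e, Equiv.apply_symm_apply]
    · intro a
      unfold emb
      have h : (π.symm (π (Fin.castLE hd a))).val < d := by
        rw [Equiv.symm_apply_apply]
        exact a.2
      rw [dif_pos h]
      congr 1
      ext
      show a.val = (π.symm (π (Fin.castLE hd a))).val
      rw [Equiv.symm_apply_apply]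
      rfl
  · intro π s
    rw [co_emb d π s, co_pr_sum, co_lin_sum]
    funext c
    simp only [Finset.sum_apply, Pi.smul_apply, smul_eq_mul, Matrix.vecMul, dotProduct, mat,
      Matrix.of_apply]
  · intro π a h
    show lin Y (pr (emb d π (Pi.single a 1))) = lin Y (pr (Pi.single (π ⟨a.val, h⟩) 1))
    have e : emb d π (Pi.single a 1) = Pi.single (π ⟨a.val, h⟩) 1 := by
      funext o
      unfold emb
      by_cases ho : o = π ⟨a.val, h⟩
      · subst ho
        have h1 : (π.symm (π ⟨a.val, h⟩)).val = a.val := by rw [Equiv.symm_apply_apply]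
        have h2 : (π.symm (π ⟨a.val, h⟩)).val < d := by rw [h1]; exact a.2
        rw [dif_pos h2, Pi.single_eq_same]
        have h3 : (⟨(π.symm (π ⟨a.val, h⟩)).val, h2⟩ : Fin d) = a := Fin.ext h1
        rw [h3, Pi.single_eq_same]
      · rw [Pi.single_eq_of_ne ho]
        split_ifs with h2
        · rw [Pi.single_eq_of_ne]
          intro h3
          apply ho
          have h4 : (π.symm o).val = a.val := congrArg Fin.val h3
          have h5 : π.symm o = ⟨a.val, h⟩ := Fin.ext h4
          rw [← h5, Equiv.apply_symm_apply]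
        · rfl
    rw [e]

end Pool.Agent.Helper59.LQ
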