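import Pool.Agent.Helper31.LQ.Goals

/-!
# LQ-G2B (MP_6fb600_gt): a substitution
-/

open MeasureTheory Set
open scoped ENNReal Matrix
open Pool.Agent.Helper31.LQ

noncomputable section

namespace Pool.Agent.Helper59.LQ

theorem gG2B (hGRM : GRM) (hRMUL : RMUL) : Pool.Agent.Helper31.LQ.G2B := by
  intro n d hd hdn Q hQ Y hdet
  obtain ⟨R, hR, hRs⟩ := (hGRM n d Q hQ Y).1
  have hR0 : R.det ≠ 0 := by
    intro h
    apply hdet
    rw [hR, Matrix.det_mul, h, zero_mul]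
  have hRu : IsUnit R.det := isUnit_iff_ne_zero.2 hR0
  have hRp : 0 < |R.det| := abs_pos.2 hR0
  rw [hRs, hR, ← hRMUL d d R hR0, ← lintegral_mul_const' _ _ ENNReal.ofReal_ne_top]
  refine lintegral_congr fun h => ?_
  have e1 : (Matrix.of fun (m : Fin d) (c : Fin d) => ∑ l, R m l * h l c) = R * Matrix.of h := by
    ext m c
    rw [Matrix.mul_apply]
    rfl
  have e2 : (R * Matrix.of h)⁻¹ * (R * Rᵀ) * ((R * Matrix.of h)⁻¹)ᵀ =
      (Matrix.of h)⁻¹ * ((Matrix.of h)⁻¹)ᵀ := by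
    rw [Matrix.mul_inv_rev, Matrix.transpose_mul]
    have h1 : (Matrix.of h)⁻¹ * R⁻¹ * (R * Rᵀ) * (R⁻¹ᵀ * (Matrix.of h)⁻¹ᵀ) =
        (Matrix.of h)⁻¹ * (R⁻¹ * R) * (R⁻¹ * R)ᵀ * (Matrix.of h)⁻¹ᵀ := by
      rw [Matrix.transpose_mul]
      simp only [Matrix.mul_assoc]
    rw [h1, Matrix.nonsing_inv_mul R hRu, Matrix.transpose_one, Matrix.mul_one, Matrix.mul_one]
  rw [e1, e2, Matrix.det_mul, abs_mul, mul_pow, ← ENNReal.ofReal_mul' (by positivity)]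
  congr 1
  have key : ∀ r x e : ℝ, 0 < r → (r ^ (n + d) * x)⁻¹ * r ^ n * e * r ^ d = x⁻¹ * e := by
    intro r x e hr
    have h2 : r ^ (n + d) ≠ 0 := (pow_pos hr _).ne'
    rw [mul_inv]
    calc (r ^ (n + d))⁻¹ * x⁻¹ * r ^ n * e * r ^ d
        = (r ^ (n + d))⁻¹ * (r ^ n * r ^ d) * (x⁻¹ * e) := by ring
      _ = x⁻¹ * e := by rw [← pow_add, inv_mul_cancel₀ h2, one_mul]
  exact key _ _ _ hRp

end Pool.Agent.Helper59.LQ
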