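import Pool.Agent.Helper31.LQ.Goals2

/-!
# LQ-SH2M: the determinant of a matrix with almost non-negative rows

Hadamard's inequality (from the volume form) and the bound
`∑ b_o² ≤ s² (1 + m² η²)` for a row with the sum `s` and with entries in `[-η s, s]`.
-/

open scoped Matrix

noncomputable section

namespace Pool.Agent.Helper59.LQ

/-- Hadamard's inequality for real matrices, by rows -/
theorem hadamard_rows {m : ℕ} (B : Matrix (Fin m) (Fin m) ℝ) :
    |B.det| ≤ ∏ j, Real.sqrt (∑ o, B j o ^ 2) := by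
  have hfin : Fact (Module.finrank ℝ (EuclideanSpace ℝ (Fin m)) = m) :=
    ⟨finrank_euclideanSpace_fin⟩
  let b := EuclideanSpace.basisFun (Fin m) ℝ
  let v : Fin m → EuclideanSpace ℝ (Fin m) := fun j => WithLp.toLp 2 (B j)
  have h1 := (b.toBasis.orientation).abs_volumeForm_apply_le v
  rw [(b.toBasis.orientation).volumeForm_robust' b v] at h1
  have h2 : b.toBasis.det v = B.det := by
    rw [Module.Basis.det_apply, ← Matrix.det_transpose]
    congr 1
  rw [h2] at h1
  refine h1.trans (le_of_eq ?_)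
  refine Finset.prod_congr rfl fun j _ => ?_
  rw [EuclideanSpace.norm_eq]
  congr 1
  refine Finset.sum_congr rfl fun o _ => ?_
  rw [Real.norm_eq_abs, sq_abs]

/-- a row with the sum `s` and entries between `-η s` and `s` -/
theorem row_bound {n : ℕ} (b : Fin (n + 1) → ℝ) (s η : ℝ) (hs : 0 ≤ s) (hη : 0 ≤ η)
    (hm : ((n : ℝ) + 1) * η ≤ 1) (hsum : ∑ o, b o = s) (hlo : ∀ o, -(η * s) ≤ b o)
    (hhi : ∀ o, b o ≤ s) : ∑ o, b o ^ 2 ≤ s ^ 2 * (1 + (n : ℝ) ^ 2 * η ^ 2) := by
  classical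
  have hn : (0 : ℝ) ≤ n := Nat.cast_nonneg n
  set c : Fin (n + 1) → ℝ := fun o => b o + η * s with hc
  have c0 : ∀ o, 0 ≤ c o := fun o => by simp only [hc]; linarith [hlo o]
  have c1 : ∀ o, c o ≤ (1 + η) * s := fun o => by simp only [hc]; linarith [hhi o]
  have csum : ∑ o, c o = (1 + η) * s + n * (η * s) := by
    simp only [hc]
    rw [Finset.sum_add_distrib, hsum, Finset.sum_const, Finset.card_univ, Fintype.card_fin,
      nsmul_eq_mul]
    push_cast
    ring
  have hηs : 0 ≤ η * s := mul_nonneg hη hs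
  have hnηs : 0 ≤ (n : ℝ) * (η * s) := mul_nonneg hn hηs
  have hDA : (n : ℝ) * (η * s) ≤ (1 + η) * s := by
    have : (n : ℝ) * η ≤ 1 := by nlinarith
    nlinarith [mul_le_mul_of_nonneg_right this hs]
  obtain ⟨a, -, ha⟩ := Finset.exists_max_image (Finset.univ : Finset (Fin (n + 1))) c
    Finset.univ_nonempty
  have key : ∑ o, c o ^ 2 ≤ ((1 + η) * s) ^ 2 + (n * (η * s)) ^ 2 := by
    rcases le_total (c a) (n * (η * s)) with hle | hge
    · have h1 : ∑ o, c o ^ 2 ≤ ∑ o, c a * c o := by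
        apply Finset.sum_le_sum
        intro o ho
        nlinarith [c0 o, ha o ho]
      rw [← Finset.mul_sum, csum] at h1
      have h2 : c a * ((1 + η) * s + n * (η * s)) ≤
          n * (η * s) * ((1 + η) * s + n * (η * s)) := by
        apply mul_le_mul_of_nonneg_right hle
        linarith
      nlinarith
    · have h1 : ∑ o ∈ Finset.univ.erase a, c o ^ 2 ≤ (∑ o ∈ Finset.univ.erase a, c o) ^ 2 := by
        apply Finset.sum_sq_le_sq_sum_of_nonneg
        intro o _
        exact c0 o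
      have h2 : c a + ∑ o ∈ Finset.univ.erase a, c o = (1 + η) * s + n * (η * s) := by
        rw [Finset.add_sum_erase _ _ (Finset.mem_univ a), csum]
      have h3 : c a ^ 2 + ∑ o ∈ Finset.univ.erase a, c o ^ 2 = ∑ o, c o ^ 2 :=
        Finset.add_sum_erase _ (fun o => c o ^ 2) (Finset.mem_univ a)
      rw [← h3]
      have h4 : ∑ o ∈ Finset.univ.erase a, c o = (1 + η) * s + n * (η * s) - c a := by linarith
      rw [h4] at h1
      nlinarith [mul_nonneg (sub_nonneg.2 hge) (sub_nonneg.2 (c1 a))]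
  have hb : ∑ o, b o ^ 2 = ∑ o, c o ^ 2 - 2 * (η * s) * ∑ o, c o +
      ((n : ℝ) + 1) * (η * s) ^ 2 := by
    rw [Finset.mul_sum, ← Finset.sum_sub_distrib]
    have : ((n : ℝ) + 1) * (η * s) ^ 2 = ∑ _o : Fin (n + 1), (η * s) ^ 2 := by
      rw [Finset.sum_const, Finset.card_univ, Fintype.card_fin, nsmul_eq_mul]
      push_cast
      ring
    rw [this, ← Finset.sum_add_distrib]
    refine Finset.sum_congr rfl fun o _ => ?_
    simp only [hc]
    ring
  rw [hb, csum]
  nlinarith [mul_nonneg hn (sq_nonneg (η * s))]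

theorem pow_bound (a t : ℝ) (ha : 0 ≤ a) (ht : 0 ≤ t) (ht1 : t ≤ 1) (m : ℕ) :
    (1 + a * t) ^ m ≤ 1 + ((1 + a) ^ m - 1) * t := by
  induction m with
  | zero => simp
  | succ m ih =>
    have h1 : (1 + a * t) ^ (m + 1) ≤ (1 + ((1 + a) ^ m - 1) * t) * (1 + a * t) := by
      rw [pow_succ]
      exact mul_le_mul_of_nonneg_right ih (by positivity)
    refine h1.trans ?_
    have h2 : 0 ≤ (1 + a) ^ m - 1 := sub_nonneg.2 (one_le_pow₀ (by linarith))
    have h3 : t * t ≤ t := by nlinarith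
    rw [pow_succ]
    nlinarith [mul_le_mul_of_nonneg_left h3 (mul_nonneg h2 ha)]

theorem gSH2M : Pool.Agent.Helper31.LQ.SH2M := by
  intro n hn1
  have hn : (0 : ℝ) ≤ n := Nat.cast_nonneg n
  refine ⟨(1 + (n : ℝ) ^ 2) ^ (n + 1) - 1, sub_nonneg.2 (one_le_pow₀ (by nlinarith)), ?_⟩
  intro η hη hnη B s hsum hB hs hs1
  set t : ℝ := 1 + (n : ℝ) ^ 2 * η ^ 2 with ht
  have ht0 : 0 ≤ t := by positivity
  have hη1 : η ≤ 1 := by nlinarith
  -- the product of the row sums
  have hprod : ∏ j, s j ≤ 1 := by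
    have h6 : ∏ j, s j ≤ ∏ j, Real.exp (s j - 1) := by
      refine Finset.prod_le_prod (fun j _ => hs j) fun j _ => ?_
      have := Real.add_one_le_exp (s j - 1)
      linarith
    rw [← Real.exp_sum, Finset.sum_sub_distrib, hs1] at h6
    simpa using h6
  have hprod0 : 0 ≤ ∏ j, s j := Finset.prod_nonneg fun j _ => hs j
  have h1 : |B.det| ≤ ∏ j, (s j * Real.sqrt t) := by
    refine (hadamard_rows B).trans ?_
    refine Finset.prod_le_prod (fun j _ => Real.sqrt_nonneg _) fun j _ => ?_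
    rw [← Real.sqrt_sq (hs j), ← Real.sqrt_mul (sq_nonneg _)]
    apply Real.sqrt_le_sqrt
    exact row_bound (B j) (s j) η (hs j) hη hnη (hsum j) (fun o => (hB j o).1)
      (fun o => (hB j o).2)
  rw [Finset.prod_mul_distrib, Finset.prod_const, Finset.card_univ, Fintype.card_fin] at h1
  have h2 : |B.det| ≤ Real.sqrt t ^ (n + 1) := by
    refine h1.trans ?_
    have := mul_le_mul_of_nonneg_right hprod (pow_nonneg (Real.sqrt_nonneg t) (n + 1))
    simpa using this
  have h3 : |B.det| ^ 2 ≤ t ^ (n + 1) := by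
    have h4 := pow_le_pow_left₀ (abs_nonneg _) h2 2
    rwa [← pow_mul, mul_comm, pow_mul, Real.sq_sqrt ht0] at h4
  have h5 := pow_bound ((n : ℝ) ^ 2) (η ^ 2) (sq_nonneg _) (sq_nonneg _)
    (pow_le_one₀ hη hη1) (n + 1)
  have h6 : |B.det| ^ 2 ≤ 1 + ((1 + (n : ℝ) ^ 2) ^ (n + 1) - 1) * η ^ 2 := h3.trans h5
  have h7 : (0 : ℝ) ≤ ((1 + (n : ℝ) ^ 2) ^ (n + 1) - 1) * η ^ 2 :=
    mul_nonneg (sub_nonneg.2 (one_le_pow₀ (by nlinarith))) (sq_nonneg _)
  rcases le_total |B.det| 1 with h8 | h8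
  · linarith
  · nlinarith

end Pool.Agent.Helper59.LQ
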